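import Pool.Agent.H5.PN.Jfq
import Pool.Agent.H3.W.Bas

/-!
# The two windows and the far digits from a record

`RecG.jf`, `RecG.farV`, `RecG.jetx`: `JfN`, `FarV`, `JetX` at the windows `t + vv q < t` of a record,
in any class `S₁` with the chain (for example a restricted class: `ChG.sub`).
-/

set_option autoImplicit false

namespace Pool.W.PKG

open Pool.PKG

open Finset Real
open Pool.Agent.H49.Ent Pool.Agent.H32.Dense Pool.STK Pool.KA Pool.KSAT Pool.K2S Pool.PB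
open Pool.GEN Pool.S6C Pool.STAT Pool.CHT Pool.GRW Pool.ONE Pool.STA
open Pool.LA91 Pool.AJW

section

variable {m : ℕ} {S : Pool.PB.PCl m} {al : ℝ} {g₀ : ℝ → ℝ} {P : List (Fin m) × Fin m → ℝ → ℝ → ℝ}
  {θ : ℝ} {P₂ : ℕ → List (Fin m) × Fin m → ℝ → ℝ → ℝ} {θ₂ Eb e₂ : ℕ → ℝ}
  {c : ℕ → Fin m} {Pt : ℝ → ℝ → ℝ} {rt : ℝ → ℝ} {h K₀ g : ℝ} {L T : ℕ → ℝ → ℝ → ℝ}
  {Sl : ℕ → ℝ} {κ : ℕ → Pool.PKG.Kg} {G : Set ℝ} {S₀ N : ℕ} {A V : ℕ → ℝ} {S₂ N' : ℕ} {V' : ℕ → ℝ}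
  {K' ε q t : ℝ}

/-- The levels of the places of slope one. -/
theorem RecG.dOne
    (R : Pool.W.PKG.RecG S al g₀ P θ P₂ θ₂ Eb e₂ c Pt rt h K₀ g L T Sl κ G S₀ N A V S₂ N' V' K' ε q t)
    {l : ℕ} (hl : l < m) (hκ : κ l = .one) (x : ℝ) (hx : |x - t| ≤ K' * q) :
    |L l x x - L l t t - (x - t)| ≤ ε * q := by
  have h1 := R.dL l hl x hx
  have h2 := R.kd l hl
  rw [hκ] at h2
  have h3 : Sl l = 1 := h2
  rwa [h3, one_mul] at h1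

variable {S₁ : Pool.PB.PCl m} {r K : ℕ} {vv X φ lam kf : ℝ}

/-- **The numbers of the two windows.** -/
theorem RecG.jf
    (R : Pool.W.PKG.RecG S al g₀ P θ P₂ θ₂ Eb e₂ c Pt rt h K₀ g L T Sl κ G S₀ N A V S₂ N' V' K' ε q t)
    (hκ : ∀ l < r, κ l = .one) (hrm : r ≤ m) (U : Pool.AJW.JfU r K vv X φ lam kf) (hGt : t ∈ G)
    (hG : ∀ k ≤ r, t + Pool.AJW.jfV r vv X k * q ∈ G) (hK : -vv + 3 ^ r * X ≤ K') (hlam : lam ≤ K')
    (hε : 2 * ε ≤ φ) :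
    Pool.AJW.JfN r (fun l x => L l x x) G (t + vv * q) t (X * q) (φ * q) (lam * q) (kf * q)
      (fun i => t + Pool.AJW.jfV r vv X (i + 1) * q) K :=
  U.jf R.q0 R.t1 (fun l hl => R.dOne (hl.trans_le hrm) (hκ l hl)) hGt hG hK hlam hε

/-- **The far digits.** -/
theorem RecG.farV
    (R : Pool.W.PKG.RecG S al g₀ P θ P₂ θ₂ Eb e₂ c Pt rt h K₀ g L T Sl κ G S₀ N A V S₂ N' V' K' ε q t)
    (hκ : ∀ l < r, κ l = .one) (hrm : r ≤ m) (hch : Pool.LA91.ChG S₁ c (r + 1) (fun l x => L l x x) G)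
    (U : Pool.AJW.JfU r K vv X φ lam kf) (hGt : t ∈ G)
    (hG : ∀ k ≤ r, t + Pool.AJW.jfV r vv X k * q ∈ G) (hK : -vv + 3 ^ r * X ≤ K') (hlam : lam ≤ K')
    (hε : 2 * ε ≤ φ) {pf : ℕ → ℝ} (hpf : ∀ l < r, L l t t - φ * q ≤ pf l) :
    Pool.AJW.FarV S₁ c 0 r (fun i => t + Pool.AJW.jfV r vv X (i + 1) * q) (t + vv * q) t (lam * q) (φ * q)
      (fun i => L i (t + Pool.AJW.jfV r vv X (i + 1) * q) (t + Pool.AJW.jfV r vv X (i + 1) * q))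
      (fun i => L i (t + vv * q) (t + vv * q)) (fun i => L i t t) pf
      (Pool.AJW.nX r (fun l x => L l x x) (t + vv * q) (X * q)) (fun l => Pool.AJW.aX r (X * q) l - 2 * (φ * q))
      (fun l => kf * q - 2 * (l + 1) * (φ * q)) (fun l j => L l t t + kf * q - (j : ℕ) * t) :=
  U.far hch R.q0 R.t1 (fun l hl => R.dOne (hl.trans_le hrm) (hκ l hl)) hGt hG hK hlam hε hpf

/-- **The two windows**, for labels with exponents `E` of the gradients and `rd` of the radii. -/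
theorem RecG.jetx
    (R : Pool.W.PKG.RecG S al g₀ P θ P₂ θ₂ Eb e₂ c Pt rt h K₀ g L T Sl κ G S₀ N A V S₂ N' V' K' ε q t)
    (hκ : ∀ l < r, κ l = .one) (hrm : r < m) (hch : Pool.LA91.ChG S₁ c (r + 1) (fun l x => L l x x) G)
    (U : Pool.AJW.JfU r K vv X φ lam kf) (hGt : t ∈ G)
    (hG : ∀ k ≤ r, t + Pool.AJW.jfV r vv X k * q ∈ G) (hK : -vv + 3 ^ r * X ≤ K') (hlam : lam ≤ K')
    (hε : 2 * ε ≤ φ) {m₁ ρ : ℝ} {E rd : ℕ → ℝ} (hm : 3 ^ r * X * q < m₁) (hρ : ρ < 1)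
    (hE : ∀ i ≤ r, 0 ≤ E i ∧ L i (t + vv * q) (t + vv * q) + E i + m₁ ≤ 1 ∧
      0 ≤ rd i ∧ rd i ≤ ρ) :
    ∃ g₁ : ℝ, 0 < g₁ ∧ ∀ qv : ℝ, 0 < qv → 2 * (qv + (K + 6) * -vv) ≤ X →
      qv + φ + ε ≤ Sl r * -vv →
      Pool.AJX.JetX S₁ c 0 r (t + vv * q) t (lam * q) (qv * q) (φ * q) g₁ E
        (fun i => L i (t + vv * q) (t + vv * q)) (fun i => L i t t)
        (Pool.AJW.nX r (fun l x => L l x x) (t + vv * q) (X * q))
        (fun l => Pool.AJW.aX r (X * q) l - (t - (t + vv * q)) - 2 * (φ * q)) rd K :=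
  U.jetx hch R.q0 R.t1 (fun l hl => R.dOne (hl.trans hrm) (hκ l hl)) (R.dL r hrm) hGt hG hK hlam hε
    hm hρ hE


end

end Pool.W.PKG
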